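import Pool.Agent.U427.GF.Green

set_option autoImplicit false

/-! # Counting zeros of polynomials in discs -/

open Filter Topology Polynomial

namespace Pool.Agent.U427.GF

/-- A polynomial with `k` zeros in a disc is small at the centre. -/
theorem count_le (Q : Polynomial ℂ) {z : ℂ} {ρ B : ℝ} (hρ : 0 < ρ)
    (hB : ∀ x : ℂ, ‖x - z‖ = 3 * ρ → ‖Q.eval x‖ ≤ B) (hQ : Q.eval z ≠ 0) :
    2 ^ (Set.ncard {w : ℂ | ‖w - z‖ < ρ ∧ Q.eval w = 0}) * ‖Q.eval z‖ ≤ B := by
  classical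
  have hQ0 : Q ≠ 0 := by
    rintro rfl
    simp at hQ
  set S : Finset ℂ := Q.roots.toFinset.filter (fun w => ‖w - z‖ < ρ) with hS
  have hset : {w : ℂ | ‖w - z‖ < ρ ∧ Q.eval w = 0} = (S : Set ℂ) := by
    ext w
    simp only [Set.mem_ofPred_eq, hS, Finset.coe_filter, Multiset.mem_toFinset, mem_roots hQ0,
      IsRoot.def]
    tauto
  rw [hset, Set.ncard_coe_finset]
  have hdvd : (∏ w ∈ S, (X - C w)) ∣ Q := by
    have h1 : (S.val.map (fun a => X - C a)).prod ∣ Q := by
      rw [Multiset.prod_X_sub_C_dvd_iff_le_roots hQ0]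
      refine le_trans (Finset.val_le_iff.mpr (Finset.filter_subset _ _)) ?_
      exact Multiset.dedup_le _
    exact h1
  obtain ⟨R, hR⟩ := hdvd
  have hev : ∀ x, Q.eval x = (∏ w ∈ S, (x - w)) * R.eval x := by
    intro x
    rw [hR, eval_mul, eval_prod]
    simp
  have hSm : ∀ w ∈ S, ‖w - z‖ < ρ := fun w hw => (Finset.mem_filter.mp hw).2
  have h2 : ∀ x : ℂ, ‖x - z‖ = 3 * ρ → ‖R.eval x‖ ≤ B / (2 * ρ) ^ S.card := by
    intro x hx
    rw [le_div_iff₀ (by positivity)]
    have h3 : (2 * ρ) ^ S.card ≤ ∏ w ∈ S, ‖x - w‖ := by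
      rw [← Finset.prod_const]
      apply Finset.prod_le_prod (fun _ _ => by positivity)
      intro w hw
      have := hSm w hw
      have h4 : ‖x - z‖ ≤ ‖x - w‖ + ‖w - z‖ := by
        have e : x - z = (x - w) + (w - z) := by ring
        rw [e]
        exact norm_add_le _ _
      linarith
    calc ‖R.eval x‖ * (2 * ρ) ^ S.card ≤ ‖R.eval x‖ * ∏ w ∈ S, ‖x - w‖ := by gcongr
      _ = ‖Q.eval x‖ := by rw [hev, norm_mul, norm_prod, mul_comm]
      _ ≤ B := hB x hx
  have h5 : ‖R.eval z‖ ≤ B / (2 * ρ) ^ S.card := by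
    have hfr : ∀ x ∈ frontier (Metric.ball z (3 * ρ)), ‖R.eval x‖ ≤ B / (2 * ρ) ^ S.card := by
      intro x hx
      rw [frontier_ball z (by positivity)] at hx
      exact h2 x (by rwa [mem_sphere_iff_norm] at hx)
    exact Complex.norm_le_of_forall_mem_frontier_norm_le Metric.isBounded_ball
      (R.differentiable.diffContOnCl) hfr (subset_closure (Metric.mem_ball_self (by positivity)))
  have h6 : ‖Q.eval z‖ ≤ ρ ^ S.card * (B / (2 * ρ) ^ S.card) := by
    rw [hev, norm_mul, norm_prod]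
    have h7 : ∏ w ∈ S, ‖z - w‖ ≤ ρ ^ S.card := by
      rw [← Finset.prod_const]
      apply Finset.prod_le_prod (fun _ _ => norm_nonneg _)
      intro w hw
      rw [norm_sub_rev]
      exact (hSm w hw).le
    gcongr
  calc 2 ^ S.card * ‖Q.eval z‖ ≤ 2 ^ S.card * (ρ ^ S.card * (B / (2 * ρ) ^ S.card)) := by gcongr
    _ = B := by
      rw [mul_pow]
      field_simp

/-- the polynomials `f ^ N` -/
noncomputable def F (n : ℕ) (c : ℂ) : ℕ → Polynomial ℂ
  | 0 => X
  | k + 1 => F n c k ^ n + C c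

lemma F_eval (n : ℕ) (c z : ℂ) (N : ℕ) : (F n c N).eval z = (f n c)^[N] z := by
  induction N with
  | zero => simp [F]
  | succ k ih =>
    rw [f_succ, ← ih]
    simp [F]

/-- From the exponential bound to the number. -/
theorem card_le {k : ℕ} {d M g D : ℝ} (hd : 0 < d) (hM : 0 < M)
    (h : 2 ^ k * d ≤ M * Real.exp g) (hD : Real.log M - Real.log d ≤ D) :
    (k : ℝ) ≤ 2 * g + 2 * D ∨ g + D < 0 := by
  by_cases hg : 0 ≤ g + D
  swap
  · right; linarith
  left
  have h1 := Real.log_le_log (by positivity) h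
  rw [Real.log_mul (by positivity) hd.ne', Real.log_mul hM.ne' (Real.exp_pos g).ne', Real.log_exp,
    Real.log_pow] at h1
  have hl2 : 0.5 ≤ Real.log 2 := by linarith [Real.log_two_gt_d9]
  have hk : (0 : ℝ) ≤ k := Nat.cast_nonneg k
  nlinarith

end Pool.Agent.U427.GF
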