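import Mathlib
import Pool.Prelude.Def_F_c31e40fa

set_option autoImplicit false

/-! # Green functions of the filled Julia sets of `z ^ n + c`: definitions -/

open Filter

namespace Pool.Agent.U427.GF

/-- The polynomial `z ^ n + c`. -/
def f (n : ℕ) (c : ℂ) : ℂ → ℂ := fun z => z ^ n + c

/-- `n ^ (-k) * log⁺ |f ^ k (z)|`, where `log⁺ x = log (max 1 x)`. -/
noncomputable def pot (n : ℕ) (c z : ℂ) (k : ℕ) : ℝ := Real.log (max 1 ‖(f n c)^[k] z‖) / (n : ℝ) ^ k

/-- The Green function of the filled Julia set (the rate of escape):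
`G (z) = lim n ^ (-k) log⁺ |f ^ k (z)|`. The limit exists (first part of the theorem). -/
noncomputable def green (n : ℕ) (c z : ℂ) : ℝ := limUnder atTop (pot n c z)

/-- The parameters `c` for which `z ^ n + c` has an attracting cycle. -/
def hyp (n : ℕ) : Set ℂ := {c | ∃ m z, N62a1eb23.IsAttractingCycle (f n c) m z}

/-- There is a parameter `c'` with `|c' - c| ≤ s` such that `z ^ n + c'` has an attracting cycle of
period at most `N`. -/
def Near (n N : ℕ) (c : ℂ) (s : ℝ) : Prop :=
  ∃ c' : ℂ, ‖c' - c‖ ≤ s ∧ ∃ p ≤ N, ∃ z, N62a1eb23.IsAttractingCycle (f n c') p z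

/-- The function `exp (-exp (ε √(log (1 / ρ))))`, which tends to `0` as `ρ → 0` faster than every
power of `ρ`. -/
noncomputable def tiny (ε ρ : ℝ) : ℝ := Real.exp (-Real.exp (ε * √(Real.log (1 / ρ))))

end Pool.Agent.U427.GF
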