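import Pool.Agent.U427.GF.Tiny
import Pool.Agent.U427.GF.Count
import Pool.Agent.T2H09.LW.Pseudo

set_option autoImplicit false

/-! # The Green function near the critical value -/

open Filter Topology N62a1eb23

namespace Pool.Agent.U427.GF

variable {n : ℕ} {c : ℂ}

/-- The uniform law. -/
theorem uniform (hn : 2 ≤ n) : ∃ C ε : ℝ, 0 < C ∧ 0 < ε ∧ ∀ c ∈ multibrotSet n,
    ∀ N : ℕ, 2 ≤ N → ∀ y : ℂ, ‖y - c‖ ≤ Real.exp (-(C * Real.log N ^ 2)) →
    3 / (n : ℝ) ^ N < green n c y → Near n (N + 2) c (‖y - c‖ ^ (ε / Real.log N)) := by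
  obtain ⟨C, ε, hC, hε, h⟩ := Pool.Agent.T2H09.LW.sepV2 hn
  refine ⟨C, ε, hC, hε, fun c hc N hN y hy hg => h c hc N hN y hy ?_⟩
  have hN2 : (2 : ℝ) ≤ N := by exact_mod_cast hN
  have h1 : ‖(f n c)^[N] c‖ ≤ 2 := Pool.Agent.W746.LD.mem_multibrot_orb hn hc N
  have h2 : 3 < ‖(f n c)^[N] y‖ := by
    by_contra h3
    push Not at h3
    exact absurd (green_le hn (Pool.Agent.T2H09.DH.norm_le_two hn hc) h3) (not_le.mpr hg)
  have h4 : 1 < ‖(f n c)^[N] y - (f n c)^[N] c‖ := by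
    have := norm_sub_norm_le ((f n c)^[N] y) ((f n c)^[N] c)
    linarith
  have h5 : √‖y - c‖ ≤ 1 := by
    rw [Real.sqrt_le_one]
    refine hy.trans ?_
    rw [Real.exp_le_one_iff]
    have : 0 ≤ C * Real.log N ^ 2 := by positivity
    linarith
  exact lt_of_le_of_lt h5 h4

/-- Parameters which are not limits of hyperbolic ones: flatness at the critical value, first
form. -/
theorem flat_pre (hn : 2 ≤ n) : ∃ C : ℝ, 0 < C ∧ ∀ c ∈ multibrotSet n, c ∉ closure (hyp n) →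
    ∃ N₀ : ℕ, ∀ N : ℕ, N₀ ≤ N → ∀ y : ℂ, ‖y - c‖ ≤ Real.exp (-(C * Real.log N ^ 2)) →
      green n c y ≤ 3 / (n : ℝ) ^ N := by
  obtain ⟨C, ε, hC, hε, h⟩ := uniform hn
  refine ⟨C, hC, fun c hc hcl => ?_⟩
  have h1 : ¬ ∃ᶠ N : ℕ in atTop, Near n (N + 2) c (Real.exp (-(ε * C * Real.log N))) :=
    fun h2 => hcl (Pool.Agent.T2H09.LW.closure_of_near2 (by positivity) h2)
  rw [Filter.not_frequently] at h1
  obtain ⟨N₀, hN₀⟩ := (h1.and (eventually_ge_atTop 2)).exists_forall_of_atTop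
  refine ⟨N₀, fun N hN y hy => ?_⟩
  by_contra h3
  push Not at h3
  obtain ⟨h4, h5⟩ := hN₀ N hN
  exact h4 (Pool.Agent.T2H09.LV.Near.mono (h c hc N h5 y hy h3) le_rfl
    (Pool.Agent.T2H09.LW.rpow_le_of_le2 hε h5 (norm_nonneg _) hy))

/-- Flatness at the critical value. -/
theorem flat_c (hn : 2 ≤ n) : ∃ ε : ℝ, 0 < ε ∧ ∀ c ∈ multibrotSet n, c ∉ closure (hyp n) →
    ∀ᶠ ρ : ℝ in 𝓝[>] 0, ∀ y : ℂ, ‖y - c‖ ≤ ρ → green n c y ≤ tiny ε ρ := by
  obtain ⟨C, hC, h⟩ := flat_pre hn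
  refine ⟨1 / (2 * √C), by positivity, fun c hc hcl => ?_⟩
  obtain ⟨N₀, hN₀⟩ := h c hc hcl
  filter_upwards [choose hn hC N₀] with ρ hρ y hy
  obtain ⟨N, h1, h2, h3⟩ := hρ
  exact (hN₀ N h1 y (hy.trans h2)).trans h3

/-- The critical point is not periodic. -/
theorem orb_ne (hn : 2 ≤ n) (hcl : c ∉ closure (hyp n)) (i : ℕ) : (f n c)^[i] c ≠ 0 := by
  intro h
  obtain ⟨c', h1, p, -, z, hz⟩ :=
    Pool.Agent.T2H09.LV.near_of_zero (n := n) hn (Nat.lt_succ_self i) (h : _) (le_refl (0 : ℝ))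
  have h2 : c' = c := by
    rw [← sub_eq_zero, ← norm_le_zero_iff]
    exact h1
  subst h2
  exact hcl (subset_closure ⟨p, z, hz⟩)

theorem contDiff_iter (n : ℕ) (c : ℂ) (k : ℕ) : ContDiff ℂ 1 ((f n c)^[k]) := by
  induction k with
  | zero => exact contDiff_id
  | succ k ih =>
    have : (f n c)^[k + 1] = fun z => ((f n c)^[k] z) ^ n + c := by
      funext z
      exact f_succ z k
    rw [this]
    exact (ih.pow n).add contDiff_const

theorem hasDerivAt_iter (_hn : 2 ≤ n) (z : ℂ) (k : ℕ) :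
    HasDerivAt ((f n c)^[k]) (∏ i ∈ Finset.range k, ((n : ℂ) * ((f n c)^[i] z) ^ (n - 1))) z := by
  induction k with
  | zero => simpa using hasDerivAt_id z
  | succ k ih =>
    have e : (f n c)^[k + 1] = fun z => ((f n c)^[k] z) ^ n + c := by
      funext z
      exact f_succ z k
    rw [e, Finset.prod_range_succ]
    have h := (ih.pow n).add_const c
    refine h.congr_deriv ?_
    ring

/-- points near a forward image of the critical value are images of points near the critical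
value -/
theorem pull (hn : 2 ≤ n) (hcl : c ∉ closure (hyp n)) (j : ℕ) :
    ∃ A : ℝ, 0 < A ∧ ∀ᶠ w in 𝓝 ((f n c)^[j] c), ∃ x : ℂ, (f n c)^[j] x = w ∧
      ‖x - c‖ ≤ A * ‖w - (f n c)^[j] c‖ := by
  have hd : (∏ i ∈ Finset.range j, ((n : ℂ) * ((f n c)^[i] c) ^ (n - 1))) ≠ 0 := by
    rw [Finset.prod_ne_zero_iff]
    intro i _
    have hn0 : (n : ℂ) ≠ 0 := by exact_mod_cast (by omega : n ≠ 0)
    exact mul_ne_zero hn0 (pow_ne_zero _ (orb_ne hn hcl i))
  have hs := (contDiff_iter n c j).contDiffAt.hasStrictDerivAt' (hasDerivAt_iter hn c j) one_ne_zero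
  have h1 := hs.eventually_right_inverse hd
  have h2 := (hs.to_localInverse hd).hasDerivAt.isBigO_sub
  obtain ⟨A, hA, h3⟩ := h2.exists_pos
  rw [Asymptotics.isBigOWith_iff] at h3
  have h4 : hs.localInverse _ _ _ hd ((f n c)^[j] c) = c := HasStrictFDerivAt.localInverse_apply_image ..
  refine ⟨A, hA, ?_⟩
  filter_upwards [h1, h3] with w hw1 hw2
  refine ⟨hs.localInverse _ _ _ hd w, hw1, ?_⟩
  rwa [h4] at hw2

/-- Flatness at all points whose orbit meets the orbit of the critical value. -/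
theorem flat_all (hn : 2 ≤ n) : ∃ ε : ℝ, 0 < ε ∧ ∀ c ∈ multibrotSet n, c ∉ closure (hyp n) →
    ∀ (z : ℂ) (m j : ℕ), (f n c)^[m] z = (f n c)^[j] c →
    ∀ᶠ ρ : ℝ in 𝓝[>] 0, ∀ y : ℂ, ‖y - z‖ ≤ ρ → green n c y ≤ tiny ε ρ := by
  obtain ⟨ε, hε, h⟩ := flat_c hn
  refine ⟨ε / 2, by positivity, fun c hc hcl z m j hz => ?_⟩
  have hn1 : (1 : ℝ) ≤ n := by exact_mod_cast (by omega : 1 ≤ n)
  obtain ⟨A, hA, h1⟩ := pull hn hcl j
  obtain ⟨A', hA', h2⟩ := (hasDerivAt_iter (c := c) hn z m).isBigO_sub.exists_pos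
  rw [Asymptotics.isBigOWith_iff] at h2
  have hcont : Tendsto ((f n c)^[m]) (𝓝 z) (𝓝 ((f n c)^[j] c)) := by
    rw [← hz]
    exact (hasDerivAt_iter (c := c) hn z m).continuousAt
  have h3 := hcont.eventually h1
  have h4 := h3.and h2
  rw [Metric.eventually_nhds_iff] at h4
  obtain ⟨r, hr, h5⟩ := h4
  have hAA : 0 < A * A' := by positivity
  have h6 : Tendsto (fun ρ : ℝ => A * A' * ρ) (𝓝[>] 0) (𝓝[>] 0) := by
    rw [tendsto_nhdsWithin_iff]
    constructor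
    · have : Tendsto (fun ρ : ℝ => A * A' * ρ) (𝓝 0) (𝓝 (A * A' * 0)) :=
        (continuous_const.mul continuous_id).tendsto 0
      rw [mul_zero] at this
      exact this.mono_left nhdsWithin_le_nhds
    · filter_upwards [self_mem_nhdsWithin] with ρ hρ
      exact mul_pos hAA hρ
  filter_upwards [h6.eventually (h c hc hcl), self_mem_nhdsWithin,
    mem_nhdsWithin_of_mem_nhds (Iio_mem_nhds hr), absorb hε hAA (B := (n : ℝ) ^ j) (by positivity)]
    with ρ h7 hρ hρr h8 y hy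
  have hρ0 : 0 < ρ := hρ
  have hyr : dist y z < r := by
    rw [dist_eq_norm]
    exact lt_of_le_of_lt hy hρr
  obtain ⟨⟨x, hx1, hx2⟩, h9⟩ := h5 hyr
  have h10 : ‖x - c‖ ≤ A * A' * ρ := by
    calc ‖x - c‖ ≤ A * ‖(f n c)^[m] y - (f n c)^[j] c‖ := hx2
      _ ≤ A * (A' * ‖y - z‖) := by
        rw [← hz]
        gcongr
      _ ≤ A * (A' * ρ) := by gcongr
      _ = A * A' * ρ := by ring
  have h11 := h7 x h10
  have h12 : (n : ℝ) ^ m * green n c y = (n : ℝ) ^ j * green n c x := by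
    rw [← green_iter hn, ← green_iter hn, hx1]
  have h13 : green n c y ≤ (n : ℝ) ^ m * green n c y := by
    have := green_nonneg (c := c) hn y
    have h14 : (1 : ℝ) ≤ (n : ℝ) ^ m := one_le_pow₀ hn1
    nlinarith
  calc green n c y ≤ (n : ℝ) ^ j * green n c x := by rw [← h12]; exact h13
    _ ≤ (n : ℝ) ^ j * tiny ε (A * A' * ρ) := by gcongr
    _ ≤ tiny (ε / 2) ρ := h8

end Pool.Agent.U427.GF
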