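import Pool.Agent.U427.GF.Defs

set_option autoImplicit false

/-! # Green functions of the filled Julia sets of `z ^ n + c` -/

open Filter Topology

namespace Pool.Agent.U427.GF

variable {n : ℕ} {c : ℂ}

lemma lp_nonneg (x : ℝ) : 0 ≤ Real.log (max 1 x) := Real.log_nonneg (le_max_left _ _)

/-- one step of the escape rate -/
lemma step (w : ℂ) :
    |Real.log (max 1 ‖w ^ n + c‖) - n * Real.log (max 1 ‖w‖)| ≤ Real.log (1 + ‖c‖) := by
  have hA : 0 ≤ ‖c‖ := norm_nonneg c
  set A := ‖c‖ with hAd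
  have hA1 : 0 < 1 + A := by linarith
  set m : ℝ := max 1 ‖w‖ with hm
  have hm1 : 1 ≤ m := le_max_left _ _
  have hm0 : 0 < m := by linarith
  have hmn : 1 ≤ m ^ n := one_le_pow₀ hm1
  have hmn0 : 0 < m ^ n := by linarith
  have hlog : (n : ℝ) * Real.log m = Real.log (m ^ n) := by rw [Real.log_pow]
  rw [hlog, abs_le]
  have hwn : ‖w‖ ^ n ≤ m ^ n := by
    gcongr
    exact le_max_right _ _
  constructor
  · have h1 : m ^ n / (1 + A) ≤ max 1 ‖w ^ n + c‖ := by
      by_cases h : ‖w‖ ≤ 1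
      · have : m = 1 := max_eq_left h
        rw [this, one_pow]
        refine le_trans ?_ (le_max_left _ _)
        rw [div_le_one hA1]
        linarith
      · push Not at h
        have hmw : m = ‖w‖ := max_eq_right h.le
        have h2 : m ^ n - A ≤ ‖w ^ n + c‖ := by
          have := norm_sub_norm_le (w ^ n) (-c)
          rw [norm_neg, norm_pow, sub_neg_eq_add, ← hmw] at this
          exact this
        by_cases h3 : m ^ n ≤ 1 + A
        · refine le_trans ?_ (le_max_left _ _)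
          rwa [div_le_one hA1]
        · push Not at h3
          refine le_trans ?_ ((le_max_right _ _).trans' h2)
          rw [div_le_iff₀ hA1]
          nlinarith
    have h2 := Real.log_le_log (by positivity) h1
    rw [Real.log_div hmn0.ne' hA1.ne'] at h2
    linarith
  · have h1 : max 1 ‖w ^ n + c‖ ≤ (1 + A) * m ^ n := by
      refine max_le (by nlinarith) ?_
      calc ‖w ^ n + c‖ ≤ ‖w‖ ^ n + A := by
            refine (norm_add_le _ _).trans ?_
            rw [norm_pow]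
        _ ≤ (1 + A) * m ^ n := by nlinarith
    have h2 := Real.log_le_log (by positivity) h1
    rw [Real.log_mul hA1.ne' hmn0.ne'] at h2
    linarith

lemma f_succ (z : ℂ) (k : ℕ) : (f n c)^[k + 1] z = ((f n c)^[k] z) ^ n + c := by
  rw [Function.iterate_succ_apply']
  rfl

lemma pot_step (hn : 2 ≤ n) (z : ℂ) (k : ℕ) :
    |pot n c z (k + 1) - pot n c z k| ≤ Real.log (1 + ‖c‖) / (n : ℝ) ^ (k + 1) := by
  have hn0 : (0 : ℝ) < n := by exact_mod_cast (by omega : 0 < n)
  unfold pot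
  rw [f_succ]
  have h := step (n := n) (c := c) ((f n c)^[k] z)
  have e : Real.log (max 1 ‖((f n c)^[k] z) ^ n + c‖) / (n : ℝ) ^ (k + 1) -
      Real.log (max 1 ‖(f n c)^[k] z‖) / (n : ℝ) ^ k =
      (Real.log (max 1 ‖((f n c)^[k] z) ^ n + c‖) - n * Real.log (max 1 ‖(f n c)^[k] z‖)) /
        (n : ℝ) ^ (k + 1) := by
    field_simp
    ring
  rw [e, abs_div, abs_of_pos (by positivity : (0 : ℝ) < (n : ℝ) ^ (k + 1))]
  gcongr

lemma pot_dist (hn : 2 ≤ n) (z : ℂ) (k : ℕ) :
    dist (pot n c z k) (pot n c z (k + 1)) ≤ (Real.log (1 + ‖c‖) / n) * (1 / n : ℝ) ^ k := by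
  have hn0 : (0 : ℝ) < n := by exact_mod_cast (by omega : 0 < n)
  rw [dist_comm, Real.dist_eq]
  refine (pot_step hn z k).trans (le_of_eq ?_)
  rw [pow_succ, div_pow, one_pow]
  field_simp

lemma one_div_lt_one (hn : 2 ≤ n) : (1 / n : ℝ) < 1 := by
  have hn1 : (1 : ℝ) < n := by exact_mod_cast (by omega : 1 < n)
  rw [div_lt_one (by linarith)]
  exact hn1

/-- The limit which defines the Green function exists. -/
theorem tendsto_green (hn : 2 ≤ n) (z : ℂ) : Tendsto (pot n c z) atTop (𝓝 (green n c z)) :=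
  CauchySeq.tendsto_limUnder (cauchySeq_of_le_geometric (1 / n : ℝ) _ (one_div_lt_one hn)
    (pot_dist (c := c) hn z))

theorem green_sub_pot (hn : 2 ≤ n) (z : ℂ) (k : ℕ) :
    |green n c z - pot n c z k| ≤ Real.log (1 + ‖c‖) / (n : ℝ) ^ k := by
  have hn0 : (0 : ℝ) < n := by exact_mod_cast (by omega : 0 < n)
  have hn2 : (2 : ℝ) ≤ n := by exact_mod_cast hn
  have h := dist_le_of_le_geometric_of_tendsto (1 / n : ℝ) _ (one_div_lt_one hn)
    (pot_dist (c := c) hn z) (tendsto_green (c := c) hn z) k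
  rw [dist_comm, Real.dist_eq] at h
  refine h.trans ?_
  have hl : 0 ≤ Real.log (1 + ‖c‖) := Real.log_nonneg (by linarith [norm_nonneg c])
  have e : Real.log (1 + ‖c‖) / n * (1 / n : ℝ) ^ k / (1 - 1 / n) =
      Real.log (1 + ‖c‖) / (n : ℝ) ^ k * (1 / (n - 1)) := by
    have : (n : ℝ) - 1 ≠ 0 := by linarith
    rw [div_pow, one_pow]
    field_simp
  rw [e]
  have h1 : 1 / ((n : ℝ) - 1) ≤ 1 := by
    rw [div_le_one (by linarith)]
    linarith
  calc _ ≤ Real.log (1 + ‖c‖) / (n : ℝ) ^ k * 1 := by gcongr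
    _ = _ := mul_one _

theorem green_nonneg (hn : 2 ≤ n) (z : ℂ) : 0 ≤ green n c z :=
  ge_of_tendsto' (tendsto_green hn z) fun k => by
    unfold pot
    have := lp_nonneg ‖(f n c)^[k] z‖
    positivity

/-- The functional equation. -/
theorem green_iter (hn : 2 ≤ n) (z : ℂ) (m : ℕ) :
    green n c ((f n c)^[m] z) = (n : ℝ) ^ m * green n c z := by
  have hn0 : (0 : ℝ) < n := by exact_mod_cast (by omega : 0 < n)
  have h1 := tendsto_green (c := c) hn ((f n c)^[m] z)
  have h2 := ((tendsto_green (c := c) hn z).comp (tendsto_add_atTop_nat m)).const_mul ((n : ℝ) ^ m)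
  refine tendsto_nhds_unique h1 (h2.congr fun k => ?_)
  simp only [Function.comp, pot]
  rw [Function.iterate_add_apply, pow_add]
  field_simp

/-- The points which are still near the filled Julia set at the time `N`. -/
theorem green_le (hn : 2 ≤ n) (hc : ‖c‖ ≤ 2) {z : ℂ} {N : ℕ} (h : ‖(f n c)^[N] z‖ ≤ 3) :
    green n c z ≤ 3 / (n : ℝ) ^ N := by
  have hn0 : (0 : ℝ) < n := by exact_mod_cast (by omega : 0 < n)
  have h1 := (abs_le.mp (green_sub_pot (c := c) hn z N)).2
  have h3 : Real.log 3 ≤ 1.5 := by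
    have he := Real.exp_one_gt_d9
    have h0 : Real.log (3 / Real.exp 1) = Real.log 3 - 1 := by
      rw [Real.log_div (by norm_num) (Real.exp_pos 1).ne', Real.log_exp]
    have h5 := Real.log_le_sub_one_of_pos (x := 3 / Real.exp 1) (by positivity)
    have h6 : 3 / Real.exp 1 ≤ 1.5 := by
      rw [div_le_iff₀ (Real.exp_pos 1)]
      linarith
    linarith
  have h2 : pot n c z N ≤ Real.log 3 / (n : ℝ) ^ N := by
    unfold pot
    gcongr
    exact max_le (by norm_num) h
  have h4 : Real.log (1 + ‖c‖) / (n : ℝ) ^ N ≤ Real.log 3 / (n : ℝ) ^ N := by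
    have : 0 < 1 + ‖c‖ := by linarith [norm_nonneg c]
    gcongr
    linarith
  calc green n c z ≤ Real.log 3 / (n : ℝ) ^ N + Real.log 3 / (n : ℝ) ^ N := by linarith
    _ = (Real.log 3 + Real.log 3) / (n : ℝ) ^ N := by ring
    _ ≤ 3 / (n : ℝ) ^ N := by
      gcongr
      linarith

/-- The growth of the iterates in terms of the Green function. -/
theorem norm_le_exp (hn : 2 ≤ n) (hc : ‖c‖ ≤ 2) (z : ℂ) (N : ℕ) :
    ‖(f n c)^[N] z‖ ≤ 3 * Real.exp ((n : ℝ) ^ N * green n c z) := by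
  have hn0 : (0 : ℝ) < n := by exact_mod_cast (by omega : 0 < n)
  have h1 := (abs_le.mp (green_sub_pot (c := c) hn z N)).1
  have h4 : Real.log (1 + ‖c‖) / (n : ℝ) ^ N ≤ Real.log 3 / (n : ℝ) ^ N := by
    have : 0 < 1 + ‖c‖ := by linarith [norm_nonneg c]
    gcongr
    linarith
  have h5 : pot n c z N ≤ green n c z + Real.log 3 / (n : ℝ) ^ N := by linarith
  unfold pot at h5
  rw [div_le_iff₀ (by positivity)] at h5
  have h6 : (green n c z + Real.log 3 / (n : ℝ) ^ N) * (n : ℝ) ^ N =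
      (n : ℝ) ^ N * green n c z + Real.log 3 := by
    field_simp
  rw [h6] at h5
  have h7 : ‖(f n c)^[N] z‖ ≤ max 1 ‖(f n c)^[N] z‖ := le_max_right _ _
  refine h7.trans ?_
  have h8 : 0 < max 1 ‖(f n c)^[N] z‖ := lt_of_lt_of_le one_pos (le_max_left _ _)
  rw [← Real.exp_log h8]
  calc Real.exp (Real.log (max 1 ‖(f n c)^[N] z‖)) ≤
      Real.exp ((n : ℝ) ^ N * green n c z + Real.log 3) := Real.exp_le_exp.mpr h5
    _ = 3 * Real.exp ((n : ℝ) ^ N * green n c z) := by
      rw [Real.exp_add, Real.exp_log (by norm_num), mul_comm]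

end Pool.Agent.U427.GF
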