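import Pool.Agent.U427.GF.Flat

set_option autoImplicit false

/-! # Preimages and periodic points near the critical value -/

open Filter Topology N62a1eb23 Polynomial

namespace Pool.Agent.U427.GF

variable {n : ℕ} {c : ℂ}

/-- Escaping points stay away from the orbits of the points in question. -/
theorem away (hn : 2 ≤ n) (hc : c ∈ multibrotSet n) {a : ℂ} {k : ℕ} (ha : 2 < ‖(f n c)^[k] a‖) :
    ∃ d : ℝ, 0 < d ∧ ∀ (z : ℂ) (m j : ℕ), (f n c)^[m] z = (f n c)^[j] c → ∀ N, m ≤ N →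
      d ≤ ‖(f n c)^[N] z - a‖ := by
  have hcont : ContinuousAt (fun x => ‖(f n c)^[k] x‖) a :=
    ((contDiff_iter n c k).continuous.norm).continuousAt
  have h1 := hcont.eventually (lt_mem_nhds ha)
  rw [Metric.eventually_nhds_iff] at h1
  obtain ⟨d, hd, h2⟩ := h1
  refine ⟨d, hd, fun z m j hz N hN => ?_⟩
  by_contra h3
  push Not at h3
  have h4 : 2 < ‖(f n c)^[k] ((f n c)^[N] z)‖ := h2 (by rwa [dist_eq_norm])
  have h5 : (f n c)^[N] z = (f n c)^[N - m + j] c := by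
    rw [Function.iterate_add_apply, ← hz, ← Function.iterate_add_apply]
    congr 1
    congr 1
    omega
  rw [h5, ← Function.iterate_add_apply] at h4
  have h6 : ‖(f n c)^[k + (N - m + j)] c‖ ≤ 2 := Pool.Agent.W746.LD.mem_multibrot_orb hn hc _
  linarith

lemma tendsto_three : Tendsto (fun ρ : ℝ => 3 * ρ) (𝓝[>] 0) (𝓝[>] 0) := by
  rw [tendsto_nhdsWithin_iff]
  constructor
  · have : Tendsto (fun ρ : ℝ => 3 * ρ) (𝓝 0) (𝓝 (3 * 0)) :=
      (continuous_const.mul continuous_id).tendsto 0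
    rw [mul_zero] at this
    exact this.mono_left nhdsWithin_le_nhds
  · filter_upwards [self_mem_nhdsWithin] with ρ hρ
    have h0 : (0 : ℝ) < ρ := hρ
    exact mul_pos three_pos h0

lemma eventually_ge (hn : 2 ≤ n) (A B : ℝ) {τ : ℝ} (hτ : 0 < τ) :
    ∀ᶠ N : ℕ in atTop, A + B * (N : ℝ) ^ 2 ≤ (n : ℝ) ^ N * τ := by
  have hn1 : (1 : ℝ) < n := by exact_mod_cast (by omega : 1 < n)
  have h1 := (tendsto_pow_const_div_const_pow_of_one_lt 2 hn1).const_mul |B|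
  have h2 := (tendsto_pow_atTop_atTop_of_one_lt hn1).eventually_ge_atTop (2 * A / τ)
  rw [mul_zero] at h1
  filter_upwards [h1.eventually_le_const (by positivity : 0 < τ / 2), h2] with N h3 h4
  have hnN : (0 : ℝ) < (n : ℝ) ^ N := by positivity
  have h5 : |B| * (N : ℝ) ^ 2 ≤ (n : ℝ) ^ N * (τ / 2) := by
    rw [← mul_div_assoc, div_le_iff₀ hnN] at h3
    linarith
  have h6 : A ≤ (n : ℝ) ^ N * (τ / 2) := by
    rw [div_le_iff₀ hτ] at h4
    linarith
  have h7 : B * (N : ℝ) ^ 2 ≤ |B| * (N : ℝ) ^ 2 := by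
    gcongr
    exact le_abs_self B
  linarith

/-- The preimages of escaping points: at most a tiny proportion of them is near a point whose orbit
meets the orbit of the critical value. -/
theorem preimages (hn : 2 ≤ n) : ∃ ε : ℝ, 0 < ε ∧ ∀ c ∈ multibrotSet n, c ∉ closure (hyp n) →
    ∀ (z : ℂ) (m j : ℕ), (f n c)^[m] z = (f n c)^[j] c →
    ∀ᶠ ρ : ℝ in 𝓝[>] 0, ∀ a : ℂ, (∃ k, 2 < ‖(f n c)^[k] a‖) → ∀ᶠ N : ℕ in atTop,
      (Set.ncard {w : ℂ | ‖w - z‖ < ρ ∧ (f n c)^[N] w = a} : ℝ) ≤ (n : ℝ) ^ N * tiny ε ρ := by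
  obtain ⟨ε, hε, h⟩ := flat_all hn
  refine ⟨ε / 2, by positivity, fun c hc hcl z m j hz => ?_⟩
  have hc2 := Pool.Agent.T2H09.DH.norm_le_two hn hc
  filter_upwards [tendsto_three.eventually (h c hc hcl z m j hz), self_mem_nhdsWithin,
    absorb hε three_pos (B := 8) (by norm_num)] with ρ h1 hρ h2
  rintro a ⟨k, hk⟩
  have hρ0 : 0 < ρ := hρ
  obtain ⟨d, hd, h3⟩ := away hn hc hk
  have hτ := tiny_pos (ε / 2) ρ
  set D : ℝ := max 0 (Real.log (3 + ‖a‖) - Real.log d) with hD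
  filter_upwards [eventually_ge_atTop m,
    eventually_ge hn (2 * D) 0 (by positivity : 0 < tiny (ε / 2) ρ / 2)] with N hN h4
  have hnN : (0 : ℝ) ≤ (n : ℝ) ^ N := by positivity
  set g : ℝ := (n : ℝ) ^ N * tiny ε (3 * ρ) with hg
  have hg0 : 0 ≤ g := mul_nonneg hnN (tiny_pos _ _).le
  have hQz : (F n c N - C a).eval z = (f n c)^[N] z - a := by
    rw [eval_sub, F_eval, eval_C]
  have hdz := h3 z m j hz N hN
  have hset : {w : ℂ | ‖w - z‖ < ρ ∧ (f n c)^[N] w = a} =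
      {w : ℂ | ‖w - z‖ < ρ ∧ (F n c N - C a).eval w = 0} := by
    ext w
    simp only [Set.mem_ofPred_eq, eval_sub, F_eval, eval_C, sub_eq_zero]
  rw [hset]
  have h5 := count_le (F n c N - C a) (z := z) (B := (3 + ‖a‖) * Real.exp g) hρ0 (by
    intro x hx
    rw [eval_sub, F_eval, eval_C]
    have h6 : ‖(f n c)^[N] x‖ ≤ 3 * Real.exp g := by
      refine (norm_le_exp hn hc2 x N).trans ?_
      have := h1 x hx.le
      rw [hg]
      gcongr
    have h7 : 1 ≤ Real.exp g := Real.one_le_exp hg0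
    have h8 : ‖a‖ ≤ ‖a‖ * Real.exp g := le_mul_of_one_le_right (norm_nonneg a) h7
    calc ‖(f n c)^[N] x - a‖ ≤ ‖(f n c)^[N] x‖ + ‖a‖ := norm_sub_le _ _
      _ ≤ 3 * Real.exp g + ‖a‖ * Real.exp g := by linarith
      _ = (3 + ‖a‖) * Real.exp g := by ring) (by
    rw [hQz, ← norm_pos_iff]
    linarith)
  rw [hQz] at h5
  have ha0 := norm_nonneg a
  have h6 : (2 : ℝ) ^ (Set.ncard {w : ℂ | ‖w - z‖ < ρ ∧ (F n c N - C a).eval w = 0}) * d ≤
      (3 + ‖a‖) * Real.exp g := by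
    refine le_trans ?_ h5
    gcongr
  rcases card_le hd (by positivity) h6 (le_max_right 0 _) with h7 | h7
  · rw [← hD] at h7
    have h8 : 8 * g ≤ (n : ℝ) ^ N * tiny (ε / 2) ρ := by
      rw [hg]
      calc 8 * ((n : ℝ) ^ N * tiny ε (3 * ρ)) = (n : ℝ) ^ N * (8 * tiny ε (3 * ρ)) := by ring
        _ ≤ _ := by gcongr
    linarith
  · have : 0 ≤ max 0 (Real.log (3 + ‖a‖) - Real.log d) := le_max_left _ _
    linarith

/-- The periodic points: at most a tiny proportion of them is near the critical value. -/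
theorem periodic (hn : 2 ≤ n) : ∃ ε : ℝ, 0 < ε ∧ ∀ c ∈ multibrotSet n, c ∉ closure (hyp n) →
    ∀ᶠ ρ : ℝ in 𝓝[>] 0, ∀ᶠ N : ℕ in atTop,
      (Set.ncard {w : ℂ | ‖w - c‖ < ρ ∧ (f n c)^[N] w = w} : ℝ) ≤ (n : ℝ) ^ N * tiny ε ρ := by
  obtain ⟨ε, hε, h⟩ := flat_c hn
  obtain ⟨C₁, ε₁, hC₁, hε₁, hrec⟩ := Pool.Agent.T2H09.LW.recV2 hn
  refine ⟨ε / 2, by positivity, fun c hc hcl => ?_⟩
  have hc2 := Pool.Agent.T2H09.DH.norm_le_two hn hc
  have hfr : ¬ ∃ᶠ N : ℕ in atTop, Near n (N + 2) c (Real.exp (-(ε₁ * C₁ * Real.log N))) :=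
    fun h2 => hcl (Pool.Agent.T2H09.LW.closure_of_near2 (by positivity) h2)
  rw [Filter.not_frequently] at hfr
  filter_upwards [tendsto_three.eventually (h c hc hcl), self_mem_nhdsWithin,
    absorb hε three_pos (B := 8) (by norm_num),
    mem_nhdsWithin_of_mem_nhds (Iio_mem_nhds one_pos)] with ρ h1 hρ h2 hρ1
  have hρ0 : 0 < ρ := hρ
  have hρ1' : ρ < 1 := hρ1
  have hτ := tiny_pos (ε / 2) ρ
  filter_upwards [hfr, eventually_ge_atTop 2,
    eventually_ge hn (2 * Real.log 8) (2 * C₁) (by positivity : 0 < tiny (ε / 2) ρ / 2)]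
    with N hN hN2 h4
  have hnN : (0 : ℝ) ≤ (n : ℝ) ^ N := by positivity
  set g : ℝ := (n : ℝ) ^ N * tiny ε (3 * ρ) with hg
  have hg0 : 0 ≤ g := mul_nonneg hnN (tiny_pos _ _).le
  have hQz : (F n c N - X).eval c = (f n c)^[N] c - c := by
    rw [eval_sub, F_eval, eval_X]
  have hdz : Real.exp (-(C₁ * Real.log N ^ 2)) ≤ ‖(f n c)^[N] c - c‖ := by
    by_contra h3
    push Not at h3
    exact hN (Pool.Agent.T2H09.LV.Near.mono (hrec c hc N hN2 h3.le) le_rfl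
      (Pool.Agent.T2H09.LW.rpow_le_of_le2 hε₁ hN2 (norm_nonneg _) h3.le))
  have hset : {w : ℂ | ‖w - c‖ < ρ ∧ (f n c)^[N] w = w} =
      {w : ℂ | ‖w - c‖ < ρ ∧ (F n c N - X).eval w = 0} := by
    ext w
    simp only [Set.mem_ofPred_eq, eval_sub, F_eval, eval_X, sub_eq_zero]
  rw [hset]
  have h5 := count_le (F n c N - X) (z := c) (B := 8 * Real.exp g) hρ0 (by
    intro x hx
    rw [eval_sub, F_eval, eval_X]
    have h6 : ‖(f n c)^[N] x‖ ≤ 3 * Real.exp g := by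
      refine (norm_le_exp hn hc2 x N).trans ?_
      have := h1 x hx.le
      rw [hg]
      gcongr
    have h7 : 1 ≤ Real.exp g := Real.one_le_exp hg0
    have h8 : ‖x‖ ≤ 5 := by
      have e : x = (x - c) + c := by ring
      rw [e]
      refine (norm_add_le _ _).trans ?_
      rw [hx]
      linarith
    calc ‖(f n c)^[N] x - x‖ ≤ ‖(f n c)^[N] x‖ + ‖x‖ := norm_sub_le _ _
      _ ≤ 8 * Real.exp g := by linarith) (by
    rw [hQz, ← norm_pos_iff]
    exact (Real.exp_pos _).trans_le hdz)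
  rw [hQz] at h5
  have h6 : (2 : ℝ) ^ (Set.ncard {w : ℂ | ‖w - c‖ < ρ ∧ (F n c N - X).eval w = 0}) *
      Real.exp (-(C₁ * Real.log N ^ 2)) ≤ 8 * Real.exp g := by
    refine le_trans ?_ h5
    gcongr
  have hl8 : 0 ≤ Real.log 8 := Real.log_nonneg (by norm_num)
  have hNl : Real.log N ^ 2 ≤ (N : ℝ) ^ 2 := by
    have h8 : (1 : ℝ) ≤ N := by exact_mod_cast (by omega : 1 ≤ N)
    have h9 : 0 ≤ Real.log N := Real.log_nonneg h8
    have h10 : Real.log N ≤ N := (Real.log_le_sub_one_of_pos (by linarith)).trans (by linarith)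
    gcongr
  rcases card_le (D := Real.log 8 + C₁ * Real.log N ^ 2) (Real.exp_pos _) (by norm_num) h6
    (le_of_eq (by rw [Real.log_exp]; ring)) with h7 | h7
  · have h8 : 8 * g ≤ (n : ℝ) ^ N * tiny (ε / 2) ρ := by
      rw [hg]
      calc 8 * ((n : ℝ) ^ N * tiny ε (3 * ρ)) = (n : ℝ) ^ N * (8 * tiny ε (3 * ρ)) := by ring
        _ ≤ _ := by gcongr
    have h9 : C₁ * Real.log N ^ 2 ≤ C₁ * (N : ℝ) ^ 2 := by gcongr
    linarith
  · have : 0 ≤ C₁ * Real.log N ^ 2 := by positivity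
    linarith

end Pool.Agent.U427.GF
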