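import Pool.Agent.U427.GF.Defs

set_option autoImplicit false

/-! # The function `exp (-exp (ε √(log (1 / ρ))))` -/

open Filter Topology

namespace Pool.Agent.U427.GF

lemma tendsto_L : Tendsto (fun ρ : ℝ => Real.log (1 / ρ)) (𝓝[>] 0) atTop := by
  simp only [one_div]
  exact Real.tendsto_log_atTop.comp tendsto_inv_nhdsGT_zero

lemma tendsto_s : Tendsto (fun ρ : ℝ => √(Real.log (1 / ρ))) (𝓝[>] 0) atTop :=
  Real.tendsto_sqrt_atTop.comp tendsto_L

lemma tendsto_t {a : ℝ} (ha : 0 < a) :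
    Tendsto (fun ρ : ℝ => Real.exp (a * √(Real.log (1 / ρ)))) (𝓝[>] 0) atTop :=
  Real.tendsto_exp_atTop.comp (Tendsto.const_mul_atTop ha tendsto_s)

lemma tiny_pos (ε ρ : ℝ) : 0 < tiny ε ρ := Real.exp_pos _

/-- Constants are absorbed. -/
theorem absorb {ε A B : ℝ} (hε : 0 < ε) (hA : 0 < A) (hB : 0 < B) :
    ∀ᶠ ρ : ℝ in 𝓝[>] 0, B * tiny ε (A * ρ) ≤ tiny (ε / 2) ρ := by
  filter_upwards [self_mem_nhdsWithin, (tendsto_L).eventually_ge_atTop (16 / 7 * Real.log A),
    (tendsto_L).eventually_ge_atTop 0,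
    (tendsto_t (a := ε / 4) (by positivity)).eventually_ge_atTop 2,
    (tendsto_t (a := ε / 4) (by positivity)).eventually_ge_atTop (Real.log B)]
    with ρ hρ h1 h0 h2 h3
  have hρ0 : 0 < ρ := hρ
  set L := Real.log (1 / ρ) with hL
  set t := Real.exp (ε / 4 * √L) with ht
  have e1 : Real.log (1 / (A * ρ)) = L - Real.log A := by
    rw [hL, one_div, one_div, Real.log_inv, Real.log_inv, Real.log_mul hA.ne' hρ0.ne']
    ring
  have h4 : 3 / 4 * √L ≤ √(Real.log (1 / (A * ρ))) := by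
    rw [e1]
    apply Real.le_sqrt_of_sq_le
    rw [mul_pow, Real.sq_sqrt h0]
    linarith
  have h5 : t ^ 3 ≤ Real.exp (ε * √(Real.log (1 / (A * ρ)))) := by
    rw [ht, ← Real.exp_nat_mul]
    apply Real.exp_le_exp.mpr
    push_cast
    nlinarith
  have h6 : Real.exp (ε / 2 * √L) = t ^ 2 := by
    rw [ht, ← Real.exp_nat_mul]
    congr 1
    push_cast
    ring
  unfold tiny
  rw [h6]
  have h7 : t ^ 2 + Real.log B ≤ t ^ 3 := by nlinarith [mul_nonneg (sq_nonneg t) (by linarith : 0 ≤ t - 2)]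
  calc B * Real.exp (-Real.exp (ε * √(Real.log (1 / (A * ρ))))) ≤
      B * Real.exp (-t ^ 3) := by gcongr
    _ = Real.exp (Real.log B) * Real.exp (-t ^ 3) := by rw [Real.exp_log hB]
    _ = Real.exp (Real.log B - t ^ 3) := by rw [← Real.exp_add]; ring_nf
    _ ≤ Real.exp (-t ^ 2) := Real.exp_le_exp.mpr (by linarith)

/-- The choice of the time. -/
theorem choose {n : ℕ} (hn : 2 ≤ n) {C : ℝ} (hC : 0 < C) (N₀ : ℕ) :
    ∀ᶠ ρ : ℝ in 𝓝[>] 0, ∃ N : ℕ, N₀ ≤ N ∧ ρ ≤ Real.exp (-(C * Real.log N ^ 2)) ∧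
      3 / (n : ℝ) ^ N ≤ tiny (1 / (2 * √C)) ρ := by
  have hsC : 0 < √C := Real.sqrt_pos.mpr hC
  filter_upwards [self_mem_nhdsWithin, (tendsto_L).eventually_ge_atTop 0,
    (tendsto_t (a := 1 / (2 * √C)) (by positivity)).eventually_ge_atTop 4,
    (tendsto_t (a := 1 / (2 * √C)) (by positivity)).eventually_ge_atTop (N₀ + 1)]
    with ρ hρ h0 h2 h3
  have hρ0 : 0 < ρ := hρ
  set L := Real.log (1 / ρ) with hL
  set t := Real.exp (1 / (2 * √C) * √L) with ht
  have ht2 : t ^ 2 = Real.exp (√L / √C) := by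
    rw [ht, ← Real.exp_nat_mul]
    congr 1
    push_cast
    field_simp
  have hfl := Nat.lt_floor_add_one (t ^ 2)
  have hfl2 := Nat.floor_le (sq_nonneg t)
  set N := ⌊t ^ 2⌋₊ with hN
  have hN0 : (N₀ : ℝ) ≤ N := by nlinarith
  have hN1 : (1 : ℝ) ≤ N := by nlinarith
  refine ⟨N, by exact_mod_cast hN0, ?_, ?_⟩
  · have h4 : Real.log N ≤ √L / √C := by
      rw [← Real.log_exp (√L / √C), ← ht2]
      exact Real.log_le_log (by linarith) hfl2
    have h5 : 0 ≤ Real.log N := Real.log_nonneg hN1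
    have h6 : C * Real.log N ^ 2 ≤ L := by
      calc C * Real.log N ^ 2 ≤ C * (√L / √C) ^ 2 := by gcongr
        _ = L := by
          rw [div_pow, Real.sq_sqrt h0, Real.sq_sqrt hC.le]
          field_simp
    calc ρ = Real.exp (-L) := by
          rw [hL, one_div, Real.log_inv, neg_neg, Real.exp_log hρ0]
      _ ≤ Real.exp (-(C * Real.log N ^ 2)) := Real.exp_le_exp.mpr (by linarith)
  · unfold tiny
    rw [← ht]
    have hn2 : (2 : ℝ) ≤ n := by exact_mod_cast hn
    have hl2 : 0.5 ≤ Real.log 2 := by linarith [Real.log_two_gt_d9]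
    have hln : Real.log 2 ≤ Real.log n := Real.log_le_log (by norm_num) hn2
    have he := Real.exp_one_gt_d9
    have h3' : Real.log 3 ≤ 1.5 := by
      have h0 : Real.log (3 / Real.exp 1) = Real.log 3 - 1 := by
        rw [Real.log_div (by norm_num) (Real.exp_pos 1).ne', Real.log_exp]
      have h5 := Real.log_le_sub_one_of_pos (x := 3 / Real.exp 1) (by positivity)
      have h6 : 3 / Real.exp 1 ≤ 1.5 := by
        rw [div_le_iff₀ (Real.exp_pos 1)]
        linarith
      linarith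
    have e : 3 / (n : ℝ) ^ N = Real.exp (Real.log 3 - N * Real.log n) := by
      rw [Real.exp_sub, Real.exp_log (by norm_num), ← Real.log_pow, Real.exp_log (by positivity)]
    rw [e]
    apply Real.exp_le_exp.mpr
    have h7 : (N : ℝ) * 0.5 ≤ N * Real.log n := by
      gcongr
      linarith
    nlinarith

end Pool.Agent.U427.GF
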